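import Pool.Agent.H.MP_f32aed_co.C

set_option autoImplicit false

namespace Pool.Agent.Results.MP_f32aed_co.Two

/-- `u` is a cyclic partial word of length `N` (`none` is the wildcard); it is an upcycle for words of
length `n` if every such word is covered by the window at exactly one position. -/
def IsUpcycle {a N : ℕ} (n : ℕ) (u : ZMod N → Option (Fin a)) : Prop :=
  ∀ w : Fin n → Fin a, ∃! i : ZMod N,
    ∀ j : Fin n, u (i + (j.val : ZMod N)) = none ∨ u (i + (j.val : ZMod N)) = some (w j)

open Pool.Agent.H.MP_f32aed_co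

def bit (k : ℕ) : Fin 2 := if U.testBit k then 1 else 0

def uu (i : ZMod 16384) : Option (Fin 2) := if i.val % 8 = 7 then none else some (bit i.val)

def F (p : ZMod 16384 × Fin 2 × Fin 2) (j : Fin 16) : Fin 2 :=
  if (p.1.val + j.val) % 8 = 7 then (if j.val < 8 then p.2.1 else p.2.2)
  else bit ((p.1.val + j.val) % 16384)

theorem val_add (i : ZMod 16384) (j : Fin 16) :
    (i + (j.val : ZMod 16384)).val = (i.val + j.val) % 16384 := by
  rw [ZMod.val_add, ZMod.val_natCast]; omega

theorem pick (i : ℕ) (w : Fin 16 → Fin 2) (j : Fin 16) (hd : (i + j.val) % 8 = 7) :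
    (if j.val < 8 then w ⟨7 - i % 8, by omega⟩ else w ⟨15 - i % 8, by omega⟩) = w j := by
  have := j.isLt
  by_cases h : j.val < 8
  · rw [if_pos h]; refine congrArg w (Fin.ext ?_); simp only; omega
  · rw [if_neg h]; refine congrArg w (Fin.ext ?_); simp only; omega

theorem cov_iff (i : ZMod 16384) (w : Fin 16 → Fin 2) :
    (∀ j : Fin 16, uu (i + (j.val : ZMod 16384)) = none ∨ uu (i + (j.val : ZMod 16384)) = some (w j)) ↔
      ∃ b, F (i, b) = w := by
  constructor
  · intro h
    refine ⟨(w ⟨7 - i.val % 8, by omega⟩, w ⟨15 - i.val % 8, by omega⟩), funext fun j => ?_⟩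
    have hj := h j
    unfold uu at hj
    rw [val_add] at hj
    unfold F
    by_cases hd : (i.val + j.val) % 8 = 7
    · rw [if_pos hd]; exact pick _ w j hd
    · rw [if_neg hd]
      rw [if_neg (by omega)] at hj
      simpa using hj
  · rintro ⟨b, rfl⟩ j
    unfold uu F
    rw [val_add]
    by_cases hd : (i.val + j.val) % 8 = 7
    · left; rw [if_pos (by omega)]
    · right; rw [if_neg (by omega), if_neg hd]

theorem F_surj : Function.Surjective F := by
  intro w
  have hlt : Nat.ofBits (fun j : Fin 16 => decide (w j = 1)) < 65536 := Nat.ofBits_lt_two_pow _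
  obtain ⟨i, hi, h⟩ := cover _ hlt
  have hv : ((i : ℕ) : ZMod 16384).val = i := by rw [ZMod.val_natCast]; omega
  refine ⟨((i : ZMod 16384), w ⟨7 - i % 8, by omega⟩, w ⟨15 - i % 8, by omega⟩), funext fun j => ?_⟩
  unfold F
  simp only [hv]
  by_cases hd : (i + j.val) % 8 = 7
  · rw [if_pos hd]; exact pick _ w j hd
  · rw [if_neg hd]
    have := h j.val j.isLt hd
    rw [Nat.testBit_ofBits_lt _ _ j.isLt] at this
    unfold bit
    rw [← this]
    have h2 : ∀ x : Fin 2, (if decide (x = 1) = true then (1 : Fin 2) else 0) = x := by decide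
    exact h2 _

theorem F_inj : Function.Injective F :=
  ((Fintype.bijective_iff_surjective_and_card F).2 ⟨F_surj, by simp [ZMod.card]⟩).1

theorem cnt : ∀ r < 8, (Finset.univ.filter (fun j : Fin 16 => (r + j.val) % 8 = 7)).card = 2 := by
  decide +kernel

theorem result : ∃ u : ZMod 16384 → Option (Fin 2),
    IsUpcycle 16 u ∧ (∃ i, u i = none) ∧ (∃ i, u i ≠ none) ∧
      ∀ i, (Finset.univ.filter (fun j : Fin 16 => u (i + (j.val : ZMod 16384)) = none)).card = 2 := by
  refine ⟨uu, fun w => ?_, ⟨7, by decide +kernel⟩, ⟨0, by decide +kernel⟩, fun i => ?_⟩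
  · obtain ⟨⟨i, b⟩, hib⟩ := F_surj w
    refine ⟨i, (cov_iff i w).2 ⟨b, hib⟩, fun i' hi' => ?_⟩
    obtain ⟨b', hb'⟩ := (cov_iff i' w).1 hi'
    exact congrArg Prod.fst (F_inj (hb'.trans hib.symm))
  · refine Eq.trans (congrArg Finset.card ?_) (cnt (i.val % 8) (Nat.mod_lt _ (by norm_num)))
    apply Finset.filter_congr
    intro j _
    unfold uu
    rw [val_add]
    by_cases hd : (i.val + j.val) % 16384 % 8 = 7
    · rw [if_pos hd]; simp only [true_iff]; omega
    · rw [if_neg hd]; simp only [reduceCtorEq, false_iff]; omega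

end Pool.Agent.Results.MP_f32aed_co.Two
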